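import Mathlib
import Pool.Agent.Results.MP_9293a4_al.FiniteNonLinear

/-!
# Unbounded-order Arguesian lattices that are not linear: a critical one, and all sizes

There is a finite unbounded-order Arguesian lattice `L` which is not linear, although all its proper
sublattices and all its proper homomorphic images are linear; it is subdirectly irreducible. For
every cardinal number `κ`, finite or infinite, with `κ ≥ |L|` there is an unbounded-order Arguesian
lattice with exactly `κ` elements which is not linear. Every nonempty unbounded-order Arguesian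
lattice is a sublattice and a homomorphic image of one which is not linear.
-/

set_option autoImplicit false

namespace Pool.Agent.Results.MP_9293a4_al.CriticalEverySize

open Pool.Agent.Results.MP_9293a4_al.FiniteNonLinear

universe u v w

/-! ### The laws -/

section laws

variable {L : Type u} {M : Type v} [Lattice L] [Lattice M]

/-- The left-hand side of `D_n`. -/
def lhs (n : ℕ) (hn : 3 ≤ n) (a b : ℕ → L) : L :=
  a n ⊓ ((Finset.Icc 1 (n - 1)).inf' (Finset.nonempty_Icc.2 (by omega))
    (fun i => a i ⊔ b i) ⊔ b n)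

/-- The right-hand side of `D_n`. -/
def rhs (n : ℕ) (hn : 3 ≤ n) (a b : ℕ → L) : L :=
  a 1 ⊔ ((Finset.Icc 1 (n - 1)).sup' (Finset.nonempty_Icc.2 (by omega))
    (fun i => (a i ⊔ a (i + 1)) ⊓ (b i ⊔ b (i + 1))) ⊓ (b 1 ⊔ b n))

theorem satisfiesD_iff (n : ℕ) (hn : 3 ≤ n) :
    SatisfiesD L n hn ↔ ∀ a b : ℕ → L, lhs n hn a b ≤ rhs n hn a b := Iff.rfl

theorem map_lhs (f : LatticeHom L M) (n : ℕ) (hn : 3 ≤ n) (a b : ℕ → L) :
    f (lhs n hn a b) = lhs n hn (fun i => f (a i)) (fun i => f (b i)) := by
  unfold lhs
  rw [map_inf, map_sup, map_finset_inf']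
  simp only [Function.comp_def, map_sup]

theorem map_rhs (f : LatticeHom L M) (n : ℕ) (hn : 3 ≤ n) (a b : ℕ → L) :
    f (rhs n hn a b) = rhs n hn (fun i => f (a i)) (fun i => f (b i)) := by
  unfold rhs
  rw [map_sup, map_inf, map_finset_sup']
  simp only [Function.comp_def, map_sup, map_inf]

theorem le_of_map_le (f : LatticeHom L M) (hf : Function.Injective f) {x y : L}
    (h : f x ≤ f y) : x ≤ y := by
  have h1 : f (x ⊓ y) = f x := by rw [map_inf]; exact inf_eq_left.2 h
  exact inf_eq_left.1 (hf h1)

theorem satisfiesD_of_injective (f : LatticeHom L M) (hf : Function.Injective f) {n : ℕ}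
    {hn : 3 ≤ n} (h : SatisfiesD M n hn) : SatisfiesD L n hn := by
  rw [satisfiesD_iff] at h ⊢
  intro a b
  apply le_of_map_le f hf
  rw [map_lhs, map_rhs]
  exact h _ _

theorem satisfiesD_of_surjective (f : LatticeHom L M) (hf : Function.Surjective f) {n : ℕ}
    {hn : 3 ≤ n} (h : SatisfiesD L n hn) : SatisfiesD M n hn := by
  rw [satisfiesD_iff] at h ⊢
  intro a b
  choose g hg using hf
  have h1 := OrderHomClass.mono f (h (fun i => g (a i)) (fun i => g (b i)))
  rw [map_lhs, map_rhs] at h1
  simp only [hg] at h1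
  exact h1

/-- The first projection. -/
def fstHom : LatticeHom (L × M) L where
  toFun := Prod.fst
  map_sup' _ _ := rfl
  map_inf' _ _ := rfl

/-- The second projection. -/
def sndHom : LatticeHom (L × M) M where
  toFun := Prod.snd
  map_sup' _ _ := rfl
  map_inf' _ _ := rfl

theorem satisfiesD_prod {n : ℕ} {hn : 3 ≤ n} (hL : SatisfiesD L n hn) (hM : SatisfiesD M n hn) :
    SatisfiesD (L × M) n hn := by
  rw [satisfiesD_iff] at hL hM ⊢
  intro a b
  have h1 := hL (fun i => (fstHom : LatticeHom (L × M) L) (a i)) (fun i => fstHom (b i))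
  have h2 := hM (fun i => (sndHom : LatticeHom (L × M) M) (a i)) (fun i => sndHom (b i))
  rw [← map_lhs, ← map_rhs] at h1 h2
  exact ⟨h1, h2⟩

end laws

/-! ### Linear lattices -/

section linear

variable {L : Type u} [Lattice L]

theorem isLinear_of_injective {A : Type v} [Lattice A] (f : LatticeHom A L)
    (hf : Function.Injective f) (h : IsLinear.{u, w} L) : IsLinear.{v, w} A := by
  obtain ⟨S, φ, hφ, hc⟩ := h
  exact ⟨S, φ.comp f, hφ.comp hf, fun a b => hc (f a) (f b)⟩

/-- The disjoint union of two equivalence relations. -/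
def sumSetoid {S T : Type w} (r : Setoid S) (s : Setoid T) : Setoid (S ⊕ T) where
  r x y := match x, y with
    | Sum.inl a, Sum.inl b => r.r a b
    | Sum.inr a, Sum.inr b => s.r a b
    | _, _ => False
  iseqv := by
    refine ⟨?_, ?_, ?_⟩
    · rintro (a | a)
      · exact r.iseqv.refl a
      · exact s.iseqv.refl a
    · rintro (a | a) (b | b) h
      · exact r.iseqv.symm h
      · exact h
      · exact h
      · exact s.iseqv.symm h
    · rintro (a | a) (b | b) (c | c) h h'
      · exact r.iseqv.trans h h'
      · exact h'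
      · exact h.elim
      · exact h.elim
      · exact h.elim
      · exact h.elim
      · exact h'
      · exact s.iseqv.trans h h'

theorem sumSetoid_mono {S T : Type w} {r r' : Setoid S} {s s' : Setoid T} (hr : r ≤ r')
    (hs : s ≤ s') : sumSetoid r s ≤ sumSetoid r' s' := by
  rintro (a | a) (b | b) h
  · exact hr h
  · exact h
  · exact h
  · exact hs h

theorem sumSetoid_inf {S T : Type w} (r r' : Setoid S) (s s' : Setoid T) :
    sumSetoid (r ⊓ r') (s ⊓ s') = sumSetoid r s ⊓ sumSetoid r' s' := by
  apply le_antisymm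
  · exact le_inf (sumSetoid_mono inf_le_left inf_le_left) (sumSetoid_mono inf_le_right inf_le_right)
  · rintro (a | a) (b | b) ⟨h, h'⟩
    · exact ⟨h, h'⟩
    · exact h
    · exact h
    · exact ⟨h, h'⟩

theorem sumSetoid_sup {S T : Type w} (r r' : Setoid S) (s s' : Setoid T) :
    sumSetoid (r ⊔ r') (s ⊔ s') = sumSetoid r s ⊔ sumSetoid r' s' := by
  apply le_antisymm
  · have h1 : r ⊔ r' ≤ Setoid.comap Sum.inl (sumSetoid r s ⊔ sumSetoid r' s') := by
      apply sup_le
      · intro a b h
        exact (le_sup_left : sumSetoid r s ≤ sumSetoid r s ⊔ sumSetoid r' s')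
          (show (sumSetoid r s).r (Sum.inl a) (Sum.inl b) from h)
      · intro a b h
        exact (le_sup_right : sumSetoid r' s' ≤ sumSetoid r s ⊔ sumSetoid r' s')
          (show (sumSetoid r' s').r (Sum.inl a) (Sum.inl b) from h)
    have h2 : s ⊔ s' ≤ Setoid.comap Sum.inr (sumSetoid r s ⊔ sumSetoid r' s') := by
      apply sup_le
      · intro a b h
        exact (le_sup_left : sumSetoid r s ≤ sumSetoid r s ⊔ sumSetoid r' s')
          (show (sumSetoid r s).r (Sum.inr a) (Sum.inr b) from h)
      · intro a b h
        exact (le_sup_right : sumSetoid r' s' ≤ sumSetoid r s ⊔ sumSetoid r' s')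
          (show (sumSetoid r' s').r (Sum.inr a) (Sum.inr b) from h)
    rintro (a | a) (b | b) h
    · exact h1 h
    · exact h.elim
    · exact h.elim
    · exact h2 h
  · exact sup_le (sumSetoid_mono le_sup_left le_sup_left)
      (sumSetoid_mono le_sup_right le_sup_right)

/-- A subdirect product of two linear lattices is linear. -/
theorem isLinear_subdirect {A B : Type v} [Lattice A] [Lattice B] (f : LatticeHom L A)
    (g : LatticeHom L B) (hfg : ∀ x y, f x = f y → g x = g y → x = y) (hA : IsLinear.{v, w} A)
    (hB : IsLinear.{v, w} B) : IsLinear.{u, w} L := by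
  obtain ⟨S, φ, hφ, hc⟩ := hA
  obtain ⟨T, ψ, hψ, hd⟩ := hB
  refine ⟨S ⊕ T,
    { toFun := fun x => sumSetoid (φ (f x)) (ψ (g x))
      map_sup' := fun x y => by
        rw [map_sup, map_sup, map_sup, map_sup]
        exact sumSetoid_sup _ _ _ _
      map_inf' := fun x y => by
        rw [map_inf, map_inf, map_inf, map_inf]
        exact sumSetoid_inf _ _ _ _ }, ?_, ?_⟩
  · intro x y hxy
    have hxy' : sumSetoid (φ (f x)) (ψ (g x)) = sumSetoid (φ (f y)) (ψ (g y)) := hxy
    apply hfg
    · apply hφ
      apply Setoid.ext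
      intro a b
      have := congrArg (fun s : Setoid (S ⊕ T) => s.r (Sum.inl a) (Sum.inl b)) hxy'
      exact iff_of_eq this
    · apply hψ
      apply Setoid.ext
      intro a b
      have := congrArg (fun s : Setoid (S ⊕ T) => s.r (Sum.inr a) (Sum.inr b)) hxy'
      exact iff_of_eq this
  · intro a b x y
    have key : ∀ a b : L, ∀ x y : S ⊕ T,
        (∃ z, (sumSetoid (φ (f a)) (ψ (g a))).r x z ∧ (sumSetoid (φ (f b)) (ψ (g b))).r z y) →
        (∃ z, (sumSetoid (φ (f b)) (ψ (g b))).r x z ∧
          (sumSetoid (φ (f a)) (ψ (g a))).r z y) := by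
      rintro a b (x | x) (y | y) ⟨z | z, h1, h2⟩
      · obtain ⟨z', h⟩ := (hc (f a) (f b) x y).1 ⟨z, h1, h2⟩
        exact ⟨Sum.inl z', h⟩
      · exact h1.elim
      · exact h2.elim
      · exact h1.elim
      · exact h1.elim
      · exact h2.elim
      · exact h1.elim
      · obtain ⟨z', h⟩ := (hd (g a) (g b) x y).1 ⟨z, h1, h2⟩
        exact ⟨Sum.inr z', h⟩
    exact ⟨key a b x y, key b a x y⟩

end linear

/-! ### Chains -/

section chain

variable {C : Type u} [LinearOrder C]

/-- The equivalence relation identifying all elements below `x`. -/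
def lowSetoid (x : C) : Setoid C where
  r a b := a = b ∨ (a ≤ x ∧ b ≤ x)
  iseqv := by
    refine ⟨fun a => Or.inl rfl, ?_, ?_⟩
    · rintro a b (h | h)
      · exact Or.inl h.symm
      · exact Or.inr ⟨h.2, h.1⟩
    · rintro a b c (rfl | h) (rfl | h')
      · exact Or.inl rfl
      · exact Or.inr h'
      · exact Or.inr h
      · exact Or.inr ⟨h.1, h'.2⟩

theorem lowSetoid_mono {x y : C} (h : x ≤ y) : lowSetoid x ≤ lowSetoid y := by
  rintro a b (hab | hab)
  · exact Or.inl hab
  · exact Or.inr ⟨hab.1.trans h, hab.2.trans h⟩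

/-- Comparable equivalence relations commute. -/
theorem commute_of_le {S : Type u} {r s : Setoid S} (h : r ≤ s) (x y : S) :
    (∃ z, r.r x z ∧ s.r z y) ↔ (∃ z, s.r x z ∧ r.r z y) := by
  constructor
  · rintro ⟨z, h1, h2⟩
    exact ⟨y, s.iseqv.trans (h h1) h2, r.iseqv.refl y⟩
  · rintro ⟨z, h1, h2⟩
    exact ⟨x, r.iseqv.refl x, s.iseqv.trans h1 (h h2)⟩

theorem chain_linear : IsLinear.{u, u} C := by
  refine ⟨C,
    { toFun := lowSetoid
      map_sup' := fun x y => by
        rcases le_total x y with h | h
        · rw [sup_eq_right.2 h, sup_eq_right.2 (lowSetoid_mono h)]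
        · rw [sup_eq_left.2 h, sup_eq_left.2 (lowSetoid_mono h)]
      map_inf' := fun x y => by
        rcases le_total x y with h | h
        · rw [inf_eq_left.2 h, inf_eq_left.2 (lowSetoid_mono h)]
        · rw [inf_eq_right.2 h, inf_eq_right.2 (lowSetoid_mono h)] }, ?_, ?_⟩
  · have key : ∀ x y : C, lowSetoid x = lowSetoid y → x ≤ y := by
      intro x y hxy
      by_contra hlt
      push Not at hlt
      have h1 : (lowSetoid x).r y x := Or.inr ⟨hlt.le, le_rfl⟩
      rw [hxy] at h1
      rcases h1 with h1 | h1
      · exact hlt.ne h1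
      · exact absurd h1.2 (not_le.2 hlt)
    intro x y hxy
    exact le_antisymm (key x y hxy) (key y x hxy.symm)
  · intro a b x y
    rcases le_total a b with h | h
    · exact commute_of_le (lowSetoid_mono h) x y
    · exact (commute_of_le (lowSetoid_mono h) x y).symm

theorem chain_satisfiesD (n : ℕ) (hn : 3 ≤ n) : SatisfiesD Cᵒᵈ n hn :=
  dual_satisfiesD.{u, u} chain_linear n hn

end chain

/-! ### A chain on top -/

section top

variable {L : Type} [Lattice L] (t : L) (ht : ∀ x, x ≤ t) (D : Type) [LinearOrder D]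

/-- The lattice `L` with the chain `D` (upside down) on top of it. -/
def onTop : Sublattice (L × (WithTop D)ᵒᵈ) where
  carrier := {p | p.2 = OrderDual.toDual ⊤ ∨ p.1 = t}
  supClosed' := by
    rintro p hp q hq
    rcases hp with hp | hp
    · rcases hq with hq | hq
      · refine Or.inl ?_
        show p.2 ⊔ q.2 = _
        rw [hp, hq, sup_idem]
      · refine Or.inr ?_
        show p.1 ⊔ q.1 = t
        rw [hq]
        exact sup_eq_right.2 (ht _)
    · refine Or.inr ?_
      show p.1 ⊔ q.1 = t
      rw [hp]
      exact sup_eq_left.2 (ht _)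
  infClosed' := by
    rintro p hp q hq
    have hbot : ∀ c : (WithTop D)ᵒᵈ, OrderDual.toDual ⊤ ≤ c := fun c => le_top (α := WithTop D)
    rcases hp with hp | hp
    · refine Or.inl ?_
      show p.2 ⊓ q.2 = _
      rw [hp]
      exact inf_eq_left.2 (hbot _)
    · rcases hq with hq | hq
      · refine Or.inl ?_
        show p.2 ⊓ q.2 = _
        rw [hq]
        exact inf_eq_right.2 (hbot _)
      · refine Or.inr ?_
        show p.1 ⊓ q.1 = t
        rw [hp, hq, inf_idem]

/-- The embedding of `L`. -/
def inTop : LatticeHom L (onTop t ht D) where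
  toFun x := ⟨(x, OrderDual.toDual ⊤), Or.inl rfl⟩
  map_sup' x y := by
    apply Subtype.ext
    exact Prod.ext rfl (sup_idem _).symm
  map_inf' x y := by
    apply Subtype.ext
    exact Prod.ext rfl (inf_idem _).symm

theorem inTop_injective : Function.Injective (inTop t ht D) := by
  intro x y h
  have h' := congrArg (fun p : onTop t ht D => p.1.1) h
  exact h'

theorem mk_onTop : Cardinal.mk (onTop t ht D) = Cardinal.mk L + Cardinal.mk D := by
  let g : L ⊕ D → onTop t ht D := fun s => match s with
    | Sum.inl x => ⟨(x, OrderDual.toDual ⊤), Or.inl rfl⟩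
    | Sum.inr d => ⟨(t, OrderDual.toDual (d : WithTop D)), Or.inr rfl⟩
  have hg : Function.Bijective g := by
    constructor
    · rintro (x | x) (y | y) h
      · have h' := congrArg (fun p : onTop t ht D => p.1.1) h
        exact congrArg Sum.inl h'
      · have h' := congrArg (fun p : onTop t ht D => OrderDual.ofDual p.1.2) h
        exact absurd h' (WithTop.coe_ne_top (a := y)).symm
      · have h' := congrArg (fun p : onTop t ht D => OrderDual.ofDual p.1.2) h
        exact absurd h' (WithTop.coe_ne_top (a := x))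
      · have h' := congrArg (fun p : onTop t ht D => OrderDual.ofDual p.1.2) h
        exact congrArg Sum.inr (WithTop.coe_injective h')
    · rintro ⟨⟨x, c⟩, hp⟩
      by_cases hc : OrderDual.ofDual c = ⊤
      · refine ⟨Sum.inl x, ?_⟩
        apply Subtype.ext
        exact Prod.ext rfl hc.symm
      · obtain ⟨d, hd⟩ := WithTop.ne_top_iff_exists.1 hc
        have hx : x = t := by
          rcases hp with hp | hp
          · exact absurd hp hc
          · exact hp
        refine ⟨Sum.inr d, ?_⟩
        apply Subtype.ext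
        exact Prod.ext hx.symm hd
  rw [← Cardinal.mk_congr (Equiv.ofBijective g hg), Cardinal.mk_sum, Cardinal.lift_id,
    Cardinal.lift_id]

end top

/-- The image of a lattice homomorphism. -/
def rangeSub {L A : Type} [Lattice L] [Lattice A] (f : LatticeHom L A) : Sublattice A where
  carrier := Set.range f
  supClosed' := by
    rintro _ ⟨x, rfl⟩ _ ⟨y, rfl⟩
    exact ⟨x ⊔ y, map_sup f x y⟩
  infClosed' := by
    rintro _ ⟨x, rfl⟩ _ ⟨y, rfl⟩
    exact ⟨x ⊓ y, map_inf f x y⟩

/-- A lattice homomorphism as a homomorphism onto its image. -/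
def toRange {L A : Type} [Lattice L] [Lattice A] (f : LatticeHom L A) :
    LatticeHom L (rangeSub f) where
  toFun x := ⟨f x, x, rfl⟩
  map_sup' x y := Subtype.ext (map_sup f x y)
  map_inf' x y := Subtype.ext (map_inf f x y)

/-- `L` is unbounded-order Arguesian: it satisfies all the higher Arguesian laws. -/
def IsUnboundedArguesian (L : Type) [Lattice L] : Prop :=
  ∀ (n : ℕ) (hn : 3 ≤ n), SatisfiesD L n hn

/-- `L` is subdirectly irreducible (for finite `L`): whenever two homomorphisms jointly separate the
elements of `L`, one of them is injective. -/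
def IsSubdirectlyIrreducible (L : Type) [Lattice L] : Prop :=
  ∀ (A B : Type) [Lattice A] [Lattice B] (f : LatticeHom L A) (g : LatticeHom L B),
    (∀ x y, f x = f y → g x = g y → x = y) → Function.Injective f ∨ Function.Injective g

/-- **Main theorem.** -/
theorem result : ∃ (L : Type) (_ : Lattice L), Finite L ∧ IsUnboundedArguesian L ∧
    ¬ IsLinear.{0, u} L ∧
    (∀ (A : Type) [Lattice A] (f : LatticeHom A L), Function.Injective f →
      ¬ Function.Surjective f → IsLinear.{0, u} A) ∧
    (∀ (A : Type) [Lattice A] (f : LatticeHom L A), Function.Surjective f →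
      ¬ Function.Injective f → IsLinear.{0, u} A) ∧
    IsSubdirectlyIrreducible L ∧
    (∀ κ : Cardinal.{0}, Cardinal.mk L ≤ κ → ∃ (M : Type) (_ : Lattice M),
      Cardinal.mk M = κ ∧ IsUnboundedArguesian M ∧ ¬ IsLinear.{0, u} M) ∧
    (∀ (K : Type) [Lattice K] [Nonempty K], IsUnboundedArguesian K →
      ∃ (M : Type) (_ : Lattice M), (Finite K → Finite M) ∧ IsUnboundedArguesian M ∧
        ¬ IsLinear.{0, u} M ∧ (∃ f : LatticeHom K M, Function.Injective f) ∧
        ∃ g : LatticeHom M K, Function.Surjective g) := by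
  classical
  have hP : ∃ m : ℕ, ∃ (L : Type) (_ : Lattice L), Finite L ∧ Nat.card L = m ∧
      IsUnboundedArguesian L ∧ ¬ IsLinear.{0, u} L := by
    obtain ⟨L, iL, hfin, hD, hl⟩ := FiniteNonLinear.result.{u}
    exact ⟨Nat.card L, L, iL, hfin, rfl, hD, hl⟩
  obtain ⟨L, iL, hfin, hcard, hD, hlin⟩ := Nat.find_spec hP
  have hmin : ∀ (A : Type) [Lattice A] [Finite A], Nat.card A < Nat.card L →
      IsUnboundedArguesian A → IsLinear.{0, u} A := by
    intro A _ _ hA hDA
    by_contra hcon
    exact Nat.find_min hP (m := Nat.card A) (by rw [← hcard]; exact hA)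
      ⟨A, inferInstance, inferInstance, rfl, hDA, hcon⟩
  have hsub : ∀ (A : Type) [Lattice A] (f : LatticeHom A L), Function.Injective f →
      ¬ Function.Surjective f → IsLinear.{0, u} A := by
    intro A _ f hf hs
    have hA : Finite A := Finite.of_injective f hf
    have := Fintype.ofFinite A
    have := Fintype.ofFinite L
    apply hmin A
    · rw [Nat.card_eq_fintype_card, Nat.card_eq_fintype_card]
      exact Fintype.card_lt_of_injective_not_surjective f hf hs
    · exact fun n hn => satisfiesD_of_injective f hf (hD n hn)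
  have himg : ∀ (A : Type) [Lattice A] (f : LatticeHom L A), Function.Surjective f →
      ¬ Function.Injective f → IsLinear.{0, u} A := by
    intro A _ f hf hs
    have hA : Finite A := Finite.of_surjective f hf
    have := Fintype.ofFinite A
    have := Fintype.ofFinite L
    apply hmin A
    · rw [Nat.card_eq_fintype_card, Nat.card_eq_fintype_card]
      exact Fintype.card_lt_of_surjective_not_injective f hf hs
    · exact fun n hn => satisfiesD_of_surjective f hf (hD n hn)
  have hne : Nonempty L := by
    by_contra hcon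
    rw [not_nonempty_iff] at hcon
    apply hlin
    refine ⟨PUnit, ⟨⟨fun x => (hcon.false x).elim, fun x => (hcon.false x).elim⟩,
      fun x => (hcon.false x).elim⟩, fun x => (hcon.false x).elim, fun x => (hcon.false x).elim⟩
  refine ⟨L, iL, hfin, hD, hlin, hsub, himg, ?_, ?_, ?_⟩
  · intro A B _ _ f g hfg
    by_contra hcon
    push Not at hcon
    obtain ⟨hf, hg⟩ := hcon
    have e1 : ∀ x y, toRange f x = toRange f y → f x = f y := fun x y h =>
      congrArg (fun p : rangeSub f => p.1) h
    have e2 : ∀ x y, toRange g x = toRange g y → g x = g y := fun x y h =>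
      congrArg (fun p : rangeSub g => p.1) h
    have s1 : Function.Surjective (toRange f) := by
      rintro ⟨_, x, rfl⟩
      exact ⟨x, rfl⟩
    have s2 : Function.Surjective (toRange g) := by
      rintro ⟨_, x, rfl⟩
      exact ⟨x, rfl⟩
    have i1 : ¬ Function.Injective (toRange f) := fun h => hf fun x y hxy =>
      h (Subtype.ext hxy)
    have i2 : ¬ Function.Injective (toRange g) := fun h => hg fun x y hxy =>
      h (Subtype.ext hxy)
    exact hlin (isLinear_subdirect (toRange f) (toRange g)
      (fun x y h1 h2 => hfg x y (e1 x y h1) (e2 x y h2)) (himg _ _ s1 i1) (himg _ _ s2 i2))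
  · intro κ hκ
    obtain ⟨t, ht⟩ : ∃ t : L, ∀ x, x ≤ t := by
      have := Fintype.ofFinite L
      exact ⟨Finset.univ.sup' Finset.univ_nonempty id, fun x =>
        Finset.le_sup' id (Finset.mem_univ x)⟩
    obtain ⟨δ, hδ⟩ := le_iff_exists_add.1 hκ
    refine ⟨onTop t ht δ.ord.ToType, inferInstance, ?_, ?_, ?_⟩
    · rw [mk_onTop, Cardinal.mk_ord_toType, hδ]
    · intro n hn
      exact satisfiesD_of_injective (Sublattice.subtype _) Subtype.val_injective
        (satisfiesD_prod (hD n hn) (chain_satisfiesD n hn))
    · exact fun h => hlin (isLinear_of_injective _ (inTop_injective t ht _) h)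
  · intro K _ hK hDK
    obtain ⟨k₀⟩ := hK
    obtain ⟨l₀⟩ := hne
    refine ⟨K × L, inferInstance, fun _ => inferInstance, fun n hn =>
      satisfiesD_prod (hDK n hn) (hD n hn), fun h => hlin (isLinear_of_injective
        ⟨⟨fun x => (k₀, x), fun x y => Prod.ext (sup_idem _).symm rfl⟩,
          fun x y => Prod.ext (inf_idem _).symm rfl⟩ (fun x y hxy => congrArg Prod.snd hxy) h),
      ⟨⟨⟨fun x => (x, l₀), fun x y => Prod.ext rfl (sup_idem _).symm⟩,
          fun x y => Prod.ext rfl (inf_idem _).symm⟩, fun x y hxy => congrArg Prod.fst hxy⟩,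
      fstHom, fun k => ⟨(k, l₀), rfl⟩⟩

end Pool.Agent.Results.MP_9293a4_al.CriticalEverySize
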